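import Pool.Agent.H16.HG.Win

/-! Boolean checkers for the certificate. -/

set_option autoImplicit false

namespace HG.Gm

open Finset

def allN : ℕ → (ℕ → Bool) → Bool
  | 0, _ => true
  | m + 1, f => (f m).and (allN m f)

theorem allN_spec : ∀ (m : ℕ) (f : ℕ → Bool), allN m f = true → ∀ i < m, f i = true
  | 0, _, _, i, hi => by omega
  | m + 1, f, h, i, hi => by
    rw [allN, Bool.and_eq_true] at h
    rcases Nat.lt_succ_iff_lt_or_eq.mp hi with h1 | h1
    · exact allN_spec m f h.2 i h1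
    · subst h1; exact h.1

/-- the `i`-th field of `b` bits of `T` -/
def fld (b T i : ℕ) : ℕ := Nat.land (Nat.shiftRight T (Nat.mul b i)) (Nat.sub (Nat.pow 2 b) 1)

def mkDat (t n PAR CODE PHI ACT GEN RK HAM st : ℕ) : Dat where
  n := n
  par w l v := fld 3 PAR (Nat.add (Nat.mul t (Nat.add (Nat.mul t l) w)) v)
  code l := fld 105 CODE l
  phi l := fld 16 PHI l
  act g l := fld 10 ACT (Nat.add (Nat.mul 8 l) g)
  gen l := fld 3 GEN l
  rk l := fld 8 RK l
  ham l := (List.range t).map fun v => fld 3 HAM (Nat.add (Nat.mul t l) v)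
  st := st

def noDup : List ℕ → Bool
  | [] => true
  | a :: r => (r.all fun x => not (Nat.beq x a)).and (noDup r)

theorem noDup_spec : ∀ l : List ℕ, noDup l = true → l.Nodup
  | [], _ => by simp
  | a :: r, h => by
    rw [noDup, Bool.and_eq_true, List.all_eq_true] at h
    rw [List.nodup_cons]
    refine ⟨fun ha => ?_, noDup_spec r h.2⟩
    have := h.1 a ha
    simp at this

def chk1 (D : Dat) (t l : ℕ) : Bool :=
  allN t fun w => (Nat.beq (sumN t (fun v => bif Nat.beq v w then 0 else W v (D.par w l v))) (D.code l)).and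
    (allN t fun v => (Nat.beq v w).or ((Nat.blt (D.par w l v) t).and (not (Nat.beq (D.par w l v) v))))

def chk3 (D : Dat) (t l : ℕ) : Bool :=
  allN (t - 2) fun g' => let g := g' + 1
    (Nat.blt (D.act g l) D.n).and ((Nat.beq (D.phi (D.act g l)) (D.phi l)).and
    (Nat.beq (sumN t (fun v => bif Nat.beq v 0 then 0 else W (sw g v) (sw g (D.par 0 l v)))) (D.code (D.act g l))))

def chk4 (D : Dat) (t l : ℕ) : Bool :=
  (Nat.ble 300 (D.phi l)).or ((noDup (D.ham l)).and (((D.ham l).all fun x => Nat.blt x t).and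
    ((Nat.beq (D.ham l).length t).and (Nat.beq (pe (D.ham l)) (D.code l)))))

def chkV (D : Dat) (t : ℕ) : Bool :=
  (allN D.n fun l => (chk1 D t l).and ((chk3 D t l).and (chk4 D t l))).and
  ((Nat.blt D.st D.n).and (Nat.beq (D.code D.st) (sumN t (fun v => bif Nat.beq v 0 then 0 else W v 0))))

theorem chkV_spec (D : Dat) (t : ℕ) (h2 : 2 ≤ t) (h6 : t ≤ 6) (h : chkV D t = true) : D.V t := by
  rw [chkV, Bool.and_eq_true, Bool.and_eq_true] at h
  obtain ⟨ha, hb, hc⟩ := h
  have ha' := allN_spec _ _ ha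
  simp only [Bool.and_eq_true] at ha'
  refine ⟨h2, h6, ?_, ?_, ?_, ?_, ?_⟩
  · intro l hl w hw v hv hvw
    have h1 := allN_spec _ _ (ha' l hl).1 w hw
    rw [Bool.and_eq_true] at h1
    have h3 := allN_spec _ _ h1.2 v hv
    have h4 : Nat.beq v w = false := by
      rw [Bool.eq_false_iff]; intro h'; exact hvw (Nat.eq_of_beq_eq_true h')
    rw [h4, Bool.false_or, Bool.and_eq_true] at h3
    refine ⟨by simpa [Nat.blt] using h3.1, ?_⟩
    intro h5
    have := h3.2
    rw [h5] at this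
    simp at this
  · intro l hl w hw
    have h1 := allN_spec _ _ (ha' l hl).1 w hw
    rw [Bool.and_eq_true] at h1
    exact Nat.eq_of_beq_eq_true h1.1
  · intro l hl g hg1 hg2
    have h1 := allN_spec _ _ (ha' l hl).2.1 (g - 1) (by omega)
    have h3 : g - 1 + 1 = g := by omega
    simp only [h3, Bool.and_eq_true] at h1
    exact ⟨by simpa [Nat.blt] using h1.1, Nat.eq_of_beq_eq_true h1.2.1, Nat.eq_of_beq_eq_true h1.2.2⟩
  · intro l hl hphi
    have h1 := (ha' l hl).2.2
    unfold chk4 at h1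
    have h3 : Nat.ble 300 (D.phi l) = false := by
      rw [Bool.eq_false_iff]; intro h'
      have := Nat.le_of_ble_eq_true h'
      omega
    rw [h3, Bool.false_or, Bool.and_eq_true, Bool.and_eq_true, Bool.and_eq_true, List.all_eq_true] at h1
    exact ⟨noDup_spec _ h1.1, fun x hx => by simpa [Nat.blt] using h1.2.1 x hx,
      Nat.eq_of_beq_eq_true h1.2.2.1, Nat.eq_of_beq_eq_true h1.2.2.2⟩
  · exact ⟨by simpa [Nat.blt] using hb, Nat.eq_of_beq_eq_true hc⟩

def sumL (f : ℕ → ℕ) : List ℕ → ℕ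
  | [] => 0
  | a :: r => Nat.add (f a) (sumL f r)

theorem sumL_eq (f : ℕ → ℕ) : ∀ S : List ℕ, sumL f S = (S.map f).sum
  | [] => rfl
  | a :: r => by rw [sumL, sumL_eq f r]; simp

def decS : List ℕ → ℕ → List ℕ
  | [], _ => []
  | _ :: S, y => Nat.land y 511 :: decS S (Nat.shiftRight y 9)

theorem decS_length : ∀ (S : List ℕ) (y : ℕ), (decS S y).length = S.length
  | [], _ => rfl
  | _ :: S, y => by rw [decS, List.length_cons, decS_length S, List.length_cons]

/-- the check of one hit; `cS = sumL code S`, `pS = sumL phi S` -/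
def hitB (D : Dat) (t : ℕ) (S : List ℕ) (cS pS w v f y : ℕ) : Bool :=
  (Nat.beq (Nat.add (sumL D.code (decS S y)) (Nat.add (W (fld 3 y 9) (fld 3 y 10)) (W v f)))
    (Nat.add cS (Nat.add (W w v) (W w f)))).and
  ((Nat.blt (sumL D.phi (decS S y)) pS).and
  (((decS S y).all fun s => Nat.blt s D.n).and
  ((Nat.blt (fld 3 y 9) t).and (Nat.blt (fld 3 y 10) t))))

theorem hitB_spec (D : Dat) (t : ℕ) (S : List ℕ) (w v f y : ℕ)
    (h : hitB D t S (sumL D.code S) (sumL D.phi S) w v f y = true) :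
    ∃ S' a b, HitP D t S w v f S' a b := by
  unfold hitB at h
  rw [Bool.and_eq_true, Bool.and_eq_true, Bool.and_eq_true, Bool.and_eq_true, List.all_eq_true] at h
  obtain ⟨h1, h2, h3, h4, h5⟩ := h
  refine ⟨decS S y, fld 3 y 9, fld 3 y 10, decS_length S y, ?_, ?_, ?_, ?_, ?_⟩
  · intro s hs
    simpa [Nat.blt] using h3 s hs
  · simpa [Nat.blt] using h4
  · simpa [Nat.blt] using h5
  · have := Nat.eq_of_beq_eq_true h1
    rw [sumL_eq, sumL_eq] at this
    exact this
  · rw [sumL_eq, sumL_eq] at h2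
    simpa [Nat.blt] using h2

/-- all hits in the tree `l` -/
def slotB (D : Dat) (t : ℕ) (S : List ℕ) (cS pS w l x : ℕ) : Bool :=
  allN t fun v => (Nat.beq v w).or ((Nat.beq (D.par w l v) w).or
    (hitB D t S cS pS w v (D.par w l v) (fld 36 x v)))

theorem slotB_spec (D : Dat) (t : ℕ) (S : List ℕ) (w l x : ℕ)
    (h : slotB D t S (sumL D.code S) (sumL D.phi S) w l x = true) :
    ∀ v < t, v ≠ w → D.par w l v = w ∨ ∃ S' a b, HitP D t S w v (D.par w l v) S' a b := by
  intro v hv hvw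
  have h1 := allN_spec _ _ h v hv
  have h4 : Nat.beq v w = false := by
    rw [Bool.eq_false_iff]; intro h'; exact hvw (Nat.eq_of_beq_eq_true h')
  rw [h4, Bool.false_or, Bool.or_eq_true] at h1
  rcases h1 with h1 | h1
  · exact Or.inl (Nat.eq_of_beq_eq_true h1)
  · exact Or.inr (hitB_spec D t S w v _ _ h1)

def goS (D : Dat) (t : ℕ) (S : List ℕ) (cS pS w : ℕ) : List ℕ → List ℕ → Bool
  | l :: R, x :: H => (slotB D t S cS pS w l x).and (goS D t S cS pS w R H)
  | [], _ => true
  | _ :: _, [] => false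

theorem goS_spec (D : Dat) (t : ℕ) (S : List ℕ) (w : ℕ) : ∀ (R H : List ℕ),
    goS D t S (sumL D.code S) (sumL D.phi S) w R H = true → ∀ l ∈ R,
    ∀ v < t, v ≠ w → D.par w l v = w ∨ ∃ S' a b, HitP D t S w v (D.par w l v) S' a b
  | [], _, _, l, hl => by simp at hl
  | l' :: R, x :: H, h, l, hl => by
    rw [goS, Bool.and_eq_true] at h
    rcases List.mem_cons.mp hl with rfl | hl
    · exact slotB_spec D t S w l x h.1
    · exact goS_spec D t S w R H h.2 l hl
  | _ :: _, [], h, _, _ => by simp [goS] at h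

def goL (D : Dat) (t : ℕ) (S : List ℕ) (cS pS w : ℕ) (exc : List ℕ) : ℕ → List ℕ → Bool
  | l + 1, x :: R => ((exc.any fun e => Nat.beq e l).or
      (slotB D t (S ++ [l]) (Nat.add cS (D.code l)) (Nat.add pS (D.phi l)) w l x)).and
      (goL D t S cS pS w exc l R)
  | 0, _ => true
  | _ + 1, [] => false

theorem sumL_append (f : ℕ → ℕ) (S : List ℕ) (l : ℕ) : sumL f (S ++ [l]) = Nat.add (sumL f S) (f l) := by
  rw [sumL_eq, sumL_eq]; simp

theorem goL_spec (D : Dat) (t : ℕ) (S : List ℕ) (w : ℕ) (exc : List ℕ) : ∀ (n : ℕ) (R : List ℕ),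
    goL D t S (sumL D.code S) (sumL D.phi S) w exc n R = true → ∀ l < n, l ∉ exc →
    ∀ v < t, v ≠ w → D.par w l v = w ∨ ∃ S' a b, HitP D t (S ++ [l]) w v (D.par w l v) S' a b
  | 0, _, _, l, hl, _ => by omega
  | m + 1, x :: R, h, l, hl, hexc => by
    rw [goL, Bool.and_eq_true] at h
    rcases Nat.lt_succ_iff_lt_or_eq.mp hl with h1 | h1
    · exact goL_spec D t S w exc m R h.2 l h1 hexc
    · subst h1
      have h2 := h.1
      rw [Bool.or_eq_true] at h2
      rcases h2 with h2 | h2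
      · exfalso
        rw [List.any_eq_true] at h2
        obtain ⟨e, he, h3⟩ := h2
        have := Nat.eq_of_beq_eq_true h3
        subst this
        exact hexc he
      · rw [← sumL_append, ← sumL_append] at h2
        exact slotB_spec D t (S ++ [l]) w l x h2
  | _ + 1, [], h, _, _, _ => by simp [goL] at h

def chkO (D : Dat) (t : ℕ) (C : Ctx) : Bool :=
  match C.S[C.op]? with
  | none => false
  | some l => (Nat.blt C.oa t).and ((not (Nat.beq C.oa C.w)).and ((not (Nat.beq (D.par C.w l C.oa) C.w)).and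
      ((Nat.blt C.on D.n).and ((Nat.beq (Nat.add (D.code C.on) (W C.oa (D.par C.w l C.oa)))
        (Nat.add (D.code l) (W C.oa C.w))).and (Nat.blt (D.phi C.on) (D.phi l))))))

def chkC (D : Dat) (t : ℕ) (C : Ctx) (H L : List ℕ) : Bool :=
  (Nat.ble C.S.length 2).and ((Nat.blt C.w t).and ((chkO D t C).and
  ((goS D t C.S (sumL D.code C.S) (sumL D.phi C.S) C.w C.S H).and
  (goL D t C.S (sumL D.code C.S) (sumL D.phi C.S) C.w C.exc D.n L))))

theorem chkC_spec (D : Dat) (t : ℕ) (C : Ctx) (H L : List ℕ) (h : chkC D t C H L = true) :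
    CtxP D t C := by
  unfold chkC at h
  rw [Bool.and_eq_true, Bool.and_eq_true, Bool.and_eq_true, Bool.and_eq_true] at h
  obtain ⟨h1, h2, h3, h4, h5⟩ := h
  refine ⟨Nat.le_of_ble_eq_true h1, by simpa [Nat.blt] using h2, goS_spec D t C.S C.w C.S H h4,
    goL_spec D t C.S C.w C.exc D.n L h5, ?_⟩
  unfold chkO at h3
  generalize C.S[C.op]? = o at h3
  cases o with
  | none => simp at h3
  | some l =>
    simp only [Bool.and_eq_true] at h3
    obtain ⟨ha, hb, hc, hd, he, hf⟩ := h3
    refine ⟨l, rfl, by simpa [Nat.blt] using ha, ?_, ?_, by simpa [Nat.blt] using hd, ?_,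
      by simpa [Nat.blt] using hf⟩
    · intro h'; rw [h'] at hb; simp at hb
    · intro h'; rw [h'] at hc; simp at hc
    · exact Nat.eq_of_beq_eq_true he

def lEq : List ℕ → List ℕ → Bool
  | [], [] => true
  | a :: r, b :: s => (Nat.beq a b).and (lEq r s)
  | _, _ => false

theorem lEq_spec : ∀ a b : List ℕ, lEq a b = true → a = b
  | [], [], _ => rfl
  | a :: r, b :: s, h => by
    rw [lEq, Bool.and_eq_true] at h
    rw [Nat.eq_of_beq_eq_true h.1, lEq_spec r s h.2]
  | [], _ :: _, h => by simp [lEq] at h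
  | _ :: _, [], h => by simp [lEq] at h

def chkCov (D : Dat) (t : ℕ) (ctxs : List Ctx) : Bool :=
  allN D.n fun l => (Nat.blt (D.phi l) 300).or
    (bif Nat.beq (D.rk l) 0 then
      ctxs.any fun C => (lEq C.S [l]).and (C.exc.all fun x =>
        ctxs.any fun C' => (lEq C'.S [l, x]).and (lEq C'.exc []))
    else (Nat.ble 1 (D.gen l)).and ((Nat.blt (D.gen l + 1) t).and
      (Nat.blt (D.rk (D.act (D.gen l) l)) (D.rk l))))

theorem chkCov_spec (D : Dat) (t : ℕ) (ctxs : List Ctx) (h : chkCov D t ctxs = true)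
    (hc : ∀ C ∈ ctxs, CtxP D t C) : CovP D t ctxs := by
  refine ⟨hc, ?_⟩
  intro l hl hphi
  have h1 := allN_spec _ _ h l hl
  have h3 : Nat.blt (D.phi l) 300 = false := by
    rw [Bool.eq_false_iff]; intro h'
    have : D.phi l < 300 := by simpa [Nat.blt] using h'
    omega
  rw [h3, Bool.false_or] at h1
  constructor
  · intro hr
    rw [hr] at h1
    have h4 : Nat.beq 0 0 = true := rfl
    rw [h4, cond_true, List.any_eq_true] at h1
    obtain ⟨C, hC, h5⟩ := h1
    rw [Bool.and_eq_true, List.all_eq_true] at h5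
    refine ⟨C, hC, lEq_spec _ _ h5.1, ?_⟩
    intro x hx
    have h6 := h5.2 x hx
    rw [List.any_eq_true] at h6
    obtain ⟨C', hC', h7⟩ := h6
    rw [Bool.and_eq_true] at h7
    exact ⟨C', hC', lEq_spec _ _ h7.1, lEq_spec _ _ h7.2⟩
  · intro hr
    have h4 : Nat.beq (D.rk l) 0 = false := by
      rw [Bool.eq_false_iff]; intro h'; exact hr (Nat.eq_of_beq_eq_true h')
    rw [h4, cond_false, Bool.and_eq_true, Bool.and_eq_true] at h1
    exact ⟨Nat.le_of_ble_eq_true h1.1, by simpa [Nat.blt] using h1.2.1, by simpa [Nat.blt] using h1.2.2⟩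

end HG.Gm
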