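import Mathlib

/-!
# Hager's conjecture `π(t,k) = k(t-1)` (MP_96ef52_co): interface

A *net* with `t` terminals: finitely many resource nodes, an adjacency between resources, and for each
terminal the set of resources attached to it.  For a graph `G` and terminals `τ` the resources are the
non-terminal vertices and the edges between terminals (isolated resources attached to both ends).
A *segment* from `a` to `b` is a nonempty duplicate free chain of resources, the first attached to `a`,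
the last to `b`.  A multiset `M` of pairs of terminals is *real* if it is realised by pairwise disjoint
segments.
-/

set_option autoImplicit false

namespace HG

open Finset

structure Net (t : ℕ) where
  R : Type
  fin : Finite R
  adj : SimpleGraph R
  Γ : Fin t → Set R

namespace Net

variable {t : ℕ} (N : Net t)

/-- `l` is a segment from the terminal `a` to the terminal `b` -/
def Seg (a b : Fin t) (l : List N.R) : Prop :=
  l.IsChain N.adj.Adj ∧ l.Nodup ∧ (∃ x ∈ l.head?, x ∈ N.Γ a) ∧ (∃ x ∈ l.getLast?, x ∈ N.Γ b)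

/-- `l` is a segment for the unordered pair `p` -/
def SegS (p : Sym2 (Fin t)) (l : List N.R) : Prop := ∃ a b, p = s(a, b) ∧ N.Seg a b l

/-- the family of pairs `p` is realised by pairwise disjoint segments -/
def RealF {ι : Type} (p : ι → Sym2 (Fin t)) : Prop :=
  ∃ L : ι → List N.R, (∀ i, N.SegS (p i) (L i)) ∧ ∀ i j, i ≠ j → (L i).Disjoint (L j)

/-- the multiset of pairs `M` is realised by pairwise disjoint segments -/
def Real (M : Multiset (Sym2 (Fin t))) : Prop :=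
  ∃ (n : ℕ) (p : Fin n → Sym2 (Fin t)), (Finset.univ : Finset (Fin n)).val.map p = M ∧ N.RealF p

/-- the star property: fans from every terminal `w` with prescribed end multiplicities `c v ≥ 1` -/
def StarProp (k : ℕ) : Prop :=
  ∀ (w : Fin t) (c : Fin t → ℕ), (∀ v, v ≠ w → 1 ≤ c v) → ∑ v ∈ univ.erase w, c v = k * (t - 1) →
    N.RealF (ι := Σ v : {v : Fin t // v ≠ w}, Fin (c v.1)) (fun x => s(w, x.1.1))

end Net

/-- the net of a graph `G` with terminals `τ` -/
def netOf {V : Type} [Finite V] (G : SimpleGraph V) {t : ℕ} (τ : Fin t → V) : Net t where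
  R := {x : V // x ∉ Set.range τ} ⊕ {e : Sym2 (Fin t) // ∃ a b, e = s(a, b) ∧ G.Adj (τ a) (τ b)}
  fin := inferInstance
  adj := SimpleGraph.fromRel fun x y => match x, y with
    | .inl x, .inl y => G.Adj x.1 y.1
    | _, _ => False
  Γ a := fun r => match r with
    | .inl x => G.Adj (τ a) x.1
    | .inr e => a ∈ e.1

/-- the multiset of consecutive pairs of a list of terminals -/
def pathEdges {t : ℕ} (l : List (Fin t)) : Multiset (Sym2 (Fin t)) :=
  (((l.zip l.tail).map fun p => s(p.1, p.2) : List (Sym2 (Fin t))) : Multiset (Sym2 (Fin t)))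

/-- replacement of the segment `ab`: keep it, or `wa`, or `wb`, or both `wa` and `wb` -/
def rep {t : ℕ} (w a b : Fin t) : Fin 4 → Multiset (Sym2 (Fin t)) :=
  ![{s(a, b)}, {s(w, a)}, {s(w, b)}, {s(w, a), s(w, b)}]

def Mon {t : ℕ} (Real : Multiset (Sym2 (Fin t)) → Prop) : Prop :=
  ∀ M M', M' ≤ M → Real M → Real M'

/-- the general exchange property -/
def GX (t k : ℕ) (Real : Multiset (Sym2 (Fin t)) → Prop) : Prop :=
  ∀ (n : ℕ) (a b : Fin n → Fin t), (∀ i, a i ≠ b i) → Real (∑ i, {s(a i, b i)}) →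
  ∀ (w : Fin t) (c : Fin t → ℕ), (∀ v, v ≠ w → 1 ≤ c v) → ∑ v ∈ univ.erase w, c v = k * (t - 1) →
    (∀ v, v ≠ w → (univ.filter fun i => s(a i, b i) = s(w, v)).card ≤ c v) →
    ∃ (h : Fin n → ℕ) (u : Fin t → ℕ),
      (∀ i, (a i = w ∨ b i = w) → h i = 0) ∧ u w = 0 ∧
      (∀ v, v ≠ w → u v + (univ.filter fun i => s(a i, b i) = s(w, v)).card ≤ c v) ∧
      ∑ i, h i + ∑ v, u v + (univ.filter fun i => a i = w ∨ b i = w).card = k * (t - 1) ∧
      ∀ ch : Fin n → Fin 4, (∀ i, (ch i = 1 ∨ ch i = 2) → 1 ≤ h i) → (∀ i, ch i = 3 → 2 ≤ h i) →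
        Real (∑ i, rep w (a i) (b i) (ch i) + ∑ v, u v • {s(w, v)})

/-- the multiset of the pairs `{v, f i v}`, `i < k`, `v ≠ w` -/
def dirSum {t k : ℕ} (w : Fin t) (f : Fin k → Fin t → Fin t) : Multiset (Sym2 (Fin t)) :=
  ∑ i, ∑ v ∈ univ.erase w, {s(v, f i v)}

/-- the exchange property for `k` trees directed towards `w` (`f i v` = next vertex of the tree `i` on the
way from `v` to `w`) -/
def EX (t k : ℕ) (Real : Multiset (Sym2 (Fin t)) → Prop) : Prop :=
  ∀ (w : Fin t) (f : Fin k → Fin t → Fin t), (∀ i v, v ≠ w → f i v ≠ v) → Real (dirSum w f) →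
    (∃ i v, v ≠ w ∧ f i v ≠ w ∧
      Real ((dirSum w f).erase s(v, f i v) + {s(w, v), s(w, f i v)})) ∨
    (∀ X : Fin k → Finset (Fin t), Real (dirSum w fun i v => if v ∈ X i then w else f i v))

/-- the game with the general exchange property can be won: `k` Hamilton paths -/
def Game (t k : ℕ) : Prop :=
  ∀ Real : Multiset (Sym2 (Fin t)) → Prop, Real 0 → Mon Real → GX t k Real →
    ∃ P : Fin k → List (Fin t), (∀ i, (P i).Nodup ∧ ∀ a, a ∈ P i) ∧ Real (∑ i, pathEdges (P i))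

/-- the game with thick stars and exchanges of `k` directed trees can be won -/
def GameE (t k : ℕ) : Prop :=
  ∀ Real : Multiset (Sym2 (Fin t)) → Prop, Mon Real →
    (∀ w, Real (dirSum w fun (_ : Fin k) _ => w)) → EX t k Real →
    ∃ P : Fin k → List (Fin t), (∀ i, (P i).Nodup ∧ ∀ a, a ∈ P i) ∧ Real (∑ i, pathEdges (P i))

/-! ### abstract fans

`P` nodes, `T` targets; `st p`: `p` may be the first node, `step`, `en p y`: target `y` may follow `p`,
`di y`: the target `y` may be reached directly. -/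

structure FanSys (P T : Type) where
  st : P → Prop
  step : P → P → Prop
  en : P → T → Prop
  di : T → Prop

def FanSys.FanList {P T : Type} (S : FanSys P T) (l : List P) (y : T) : Prop :=
  l.IsChain S.step ∧ l.Nodup ∧ (l = [] → S.di y) ∧ (∀ x ∈ l.head?, S.st x) ∧ (∀ x ∈ l.getLast?, S.en x y)

structure FanSys.FanMap {P T : Type} (S : FanSys P T) {C : Type} (φ : C ⊕ P → P ⊕ T) : Prop where
  inj : Function.Injective φ
  h1 : ∀ c p, φ (.inl c) = .inl p → S.st p
  h2 : ∀ c y, φ (.inl c) = .inr y → S.di y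
  h3 : ∀ p q, φ (.inr p) = .inl q → q = p ∨ S.step p q
  h4 : ∀ p y, φ (.inr p) = .inr y → S.en p y

/-! ### the parts -/

/-- reindexing -/
def S_RI : Prop := ∀ (t : ℕ) (N : Net t) (ι : Type) [Fintype ι] (q : ι → Sym2 (Fin t)),
  N.Real ((Finset.univ : Finset ι).val.map q) ↔ N.RealF q

/-- monotonicity -/
def S_MON : Prop := ∀ (t : ℕ) (N : Net t), Mon N.Real

/-- Mendelsohn-Dulmage (proof: `U` = least set containing `g y`, `y ∉ range f`, and closed under
`l ↦ g (f l)` for `f l ∈ Y`; `h = g⁻¹` on `U`, `f` elsewhere) -/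
def S_MD : Prop := ∀ (L R : Type) (f : L → R), Function.Injective f → ∀ (Y : Set R) (g : Y → L),
  Function.Injective g → ∃ h : L → R, Function.Injective h ∧
    (∀ l, h l = f l ∨ ∃ y : Y, g y = l ∧ h l = y.1) ∧ Y ⊆ Set.range h

/-- from disjoint lists to an injective map (successor function, identity on unused nodes) -/
def S_FA : Prop := ∀ (P T C : Type) (S : FanSys P T) (L : C → List P) (y : C → T),
  Function.Injective y → (∀ c, S.FanList (L c) (y c)) → (∀ c d, c ≠ d → (L c).Disjoint (L d)) →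
  ∃ φ : C ⊕ P → P ⊕ T, S.FanMap φ ∧ (∀ p, .inl p ∈ Set.range φ) ∧
    ∀ z, .inr z ∈ Set.range φ ↔ ∃ c, y c = z

/-- from an injective map to disjoint lists (orbits of the elements of `C`) -/
def S_FB : Prop := ∀ (P T C : Type) [Finite P] [Finite C] (S : FanSys P T) (φ : C ⊕ P → P ⊕ T),
  S.FanMap φ → ∃ (L : C → List P) (y : C → T), Function.Injective y ∧ (∀ c, S.FanList (L c) (y c)) ∧
    (∀ c d, c ≠ d → (L c).Disjoint (L d)) ∧ (∀ c, .inr (y c) ∈ Set.range φ) ∧
    ((∀ p, .inl p ∈ Set.range φ) → ∀ z, .inr z ∈ Set.range φ → ∃ c, y c = z)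

/-- Pym's theorem: a fan with all starts and covering the ends of the second fan -/
def S_PY : Prop := ∀ (P T C D : Type) [Finite P] [Finite C] (S : FanSys P T) (L : C → List P) (y : C → T)
  (L' : D → List P) (y' : D → T) (e : D → C), Function.Injective e →
  Function.Injective y → (∀ c, S.FanList (L c) (y c)) → (∀ c d, c ≠ d → (L c).Disjoint (L d)) →
  Function.Injective y' → (∀ c, S.FanList (L' c) (y' c)) → (∀ c d, c ≠ d → (L' c).Disjoint (L' d)) →
  ∃ (K : C → List P) (z : C → T), Function.Injective z ∧ (∀ c, S.FanList (K c) (z c)) ∧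
    (∀ c d, c ≠ d → (K c).Disjoint (K d)) ∧ (∀ d, ∃ c, z c = y' d) ∧
    ∀ c, (∃ c', z c = y c') ∨ ∃ d, z c = y' d

/-- the fan system of a net, a terminal `w` and a set `Z` of resources: nodes are the resources outside
`Z`, targets are the elements of `Z` and the clones `(v,j)`, `v ≠ w`, `j < c v` -/
def Net.fs {t : ℕ} (N : Net t) (w : Fin t) (Z : Set N.R) (c : Fin t → ℕ) :
    FanSys {r : N.R // r ∉ Z} ({r : N.R // r ∈ Z} ⊕ (Σ v : {v : Fin t // v ≠ w}, Fin (c v.1))) where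
  st p := p.1 ∈ N.Γ w
  step p q := N.adj.Adj p.1 q.1
  en p y := match y with
    | .inl z => N.adj.Adj p.1 z.1
    | .inr x => p.1 ∈ N.Γ x.1.1
  di y := match y with
    | .inl z => z.1 ∈ N.Γ w
    | .inr _ => False

/-- cutting a segment from `w` to `v` at its first element of `Z` -/
def S_CU : Prop := ∀ (t : ℕ) (N : Net t) (w : Fin t) (Z : Set N.R) (c : Fin t → ℕ)
  (x : Σ v : {v : Fin t // v ≠ w}, Fin (c v.1)) (l : List N.R), N.Seg w x.1.1 l →
  ∃ l' : List {r : N.R // r ∉ Z}, (∀ r ∈ l', r.1 ∈ l) ∧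
    ((∃ z : {r : N.R // r ∈ Z}, z.1 ∈ l ∧ (N.fs w Z c).FanList l' (.inl z)) ∨
      (N.fs w Z c).FanList l' (.inr x))

/-- a single hit: rerouting the segment `ab` to `wa` or `wb` -/
def S_HA : Prop := ∀ (t : ℕ) (N : Net t) (w : Fin t) (Z : Set N.R) (c : Fin t → ℕ) (a b : Fin t)
  (l : List N.R), N.SegS s(a, b) l → (∀ r ∈ l, r ∈ Z) →
  ∀ (m : List {r : N.R // r ∉ Z}) (z : {r : N.R // r ∈ Z}), z.1 ∈ l → (N.fs w Z c).FanList m (.inl z) →
  ∃ m' : List N.R, N.SegS s(w, a) m' ∧ ∀ r ∈ m', r ∈ l ∨ r ∈ m.map Subtype.val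

/-- a double hit: the segment `ab` is replaced by disjoint segments `wa` and `wb` -/
def S_HB : Prop := ∀ (t : ℕ) (N : Net t) (w : Fin t) (Z : Set N.R) (c : Fin t → ℕ) (a b : Fin t)
  (l : List N.R), N.SegS s(a, b) l → (∀ r ∈ l, r ∈ Z) →
  ∀ (m₁ m₂ : List {r : N.R // r ∉ Z}) (z₁ z₂ : {r : N.R // r ∈ Z}), z₁ ≠ z₂ → m₁.Disjoint m₂ →
  z₁.1 ∈ l → z₂.1 ∈ l → (N.fs w Z c).FanList m₁ (.inl z₁) → (N.fs w Z c).FanList m₂ (.inl z₂) →
  ∃ m₁' m₂' : List N.R, N.SegS s(w, a) m₁' ∧ N.SegS s(w, b) m₂' ∧ m₁'.Disjoint m₂' ∧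
    (∀ r ∈ m₁', r ∈ l ∨ r ∈ m₁.map Subtype.val ∨ r ∈ m₂.map Subtype.val) ∧
    (∀ r ∈ m₂', r ∈ l ∨ r ∈ m₁.map Subtype.val ∨ r ∈ m₂.map Subtype.val)

/-- the family version of the general exchange property: `e` the old segments, `E` their lists; the new fan
`(K, z)` from `w` avoids all old segments not at `w` before its targets, and its ends at clones include the
clones `κ i` assigned to the old segments at `w` -/
def S_FN : Prop := ∀ (t k : ℕ) (N : Net t), N.StarProp k →
  ∀ (n : ℕ) (a b : Fin n → Fin t), (∀ i, a i ≠ b i) →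
  ∀ (E : Fin n → List N.R), (∀ i, N.SegS s(a i, b i) (E i)) → (∀ i j, i ≠ j → (E i).Disjoint (E j)) →
  ∀ (w : Fin t) (c : Fin t → ℕ), (∀ v, v ≠ w → 1 ≤ c v) → ∑ v ∈ univ.erase w, c v = k * (t - 1) →
  ∀ (κ : {i : Fin n // a i = w ∨ b i = w} → Σ v : {v : Fin t // v ≠ w}, Fin (c v.1)),
    Function.Injective κ → (∀ i, s(a i.1, b i.1) = s(w, (κ i).1.1)) →
  ∃ (K : (Σ v : {v : Fin t // v ≠ w}, Fin (c v.1)) →
        List {r : N.R // r ∉ {r | ∃ i, a i ≠ w ∧ b i ≠ w ∧ r ∈ E i}})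
    (z : (Σ v : {v : Fin t // v ≠ w}, Fin (c v.1)) →
        {r : N.R // r ∈ {r | ∃ i, a i ≠ w ∧ b i ≠ w ∧ r ∈ E i}} ⊕ (Σ v : {v : Fin t // v ≠ w}, Fin (c v.1))),
    Function.Injective z ∧ (∀ x, (N.fs w {r | ∃ i, a i ≠ w ∧ b i ≠ w ∧ r ∈ E i} c).FanList (K x) (z x)) ∧
    (∀ x y, x ≠ y → (K x).Disjoint (K y)) ∧ ∀ i, ∃ x, z x = .inr (κ i)

/-- the general exchange property for nets with the star property -/
def S_GX : Prop := ∀ (t k : ℕ) (N : Net t), N.StarProp k → GX t k N.Real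

/-- pigeonhole: the exchange property of directed trees, and the thick stars, from the general one -/
def S_EX : Prop := ∀ (t k : ℕ) (Real : Multiset (Sym2 (Fin t)) → Prop), Mon Real → GX t k Real → EX t k Real

def S_ST : Prop := ∀ (t k : ℕ) (Real : Multiset (Sym2 (Fin t)) → Prop), 1 ≤ k → Real 0 → Mon Real →
  GX t k Real → ∀ w, Real (dirSum w fun (_ : Fin k) _ => w)

/-- Menger: the star property of the net of a `k(t-1)`-connected graph -/
def S_ME : Prop := ∀ (t k : ℕ) (V : Type) [Finite V] (G : SimpleGraph V) (τ : Fin t → V),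
  2 ≤ t → 1 ≤ k → Function.Injective τ → k * (t - 1) + 1 ≤ Nat.card V →
  (∀ X : Finset V, X.card < k * (t - 1) → (G.induce ((↑X : Set V)ᶜ)).Connected) →
  (netOf G τ).StarProp k

/-- the Menger step in the net: if no small set of resources and clones separates, the fan exists -/
def S_MB : Prop := ∀ (t k : ℕ) (N : Net t) (w : Fin t) (c : Fin t → ℕ),
  ∑ v ∈ univ.erase w, c v = k * (t - 1) →
  (∀ (U : Set N.R) (D : Finset (Fin t)), w ∉ D → (∃ v, v ≠ w ∧ v ∉ D) →
    U.ncard + ∑ v ∈ D, c v < k * (t - 1) →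
    ∃ v, v ≠ w ∧ v ∉ D ∧ ∃ l, N.Seg w v l ∧ ∀ r ∈ l, r ∉ U) →
  N.RealF (ι := Σ v : {v : Fin t // v ≠ w}, Fin (c v.1)) (fun x => s(w, x.1.1))

/-- mixed connectivity: deleting a set `U` of resources and a set `D` of terminals of a highly connected
graph leaves a segment from `w` to another terminal -/
def S_MC : Prop := ∀ (t κ : ℕ) (V : Type) [Finite V] (G : SimpleGraph V) (τ : Fin t → V),
  Function.Injective τ → κ + 1 ≤ Nat.card V →
  (∀ X : Finset V, X.card < κ → (G.induce ((↑X : Set V)ᶜ)).Connected) →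
  ∀ (w : Fin t) (U : Set (netOf G τ).R) (D : Finset (Fin t)), w ∉ D → (∃ v, v ≠ w ∧ v ∉ D) →
    U.ncard + D.card < κ →
    ∃ v, v ≠ w ∧ v ∉ D ∧ ∃ l, (netOf G τ).Seg w v l ∧ ∀ r ∈ l, r ∉ U

/-- from realised Hamilton paths to walks in the graph -/
def S_WK : Prop := ∀ (t k : ℕ) (V : Type) [Finite V] (G : SimpleGraph V) (τ : Fin t → V),
  2 ≤ t → Function.Injective τ →
  ∀ P : Fin k → List (Fin t), (∀ i, (P i).Nodup ∧ ∀ a, a ∈ P i) → (netOf G τ).Real (∑ i, pathEdges (P i)) →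
  ∃ (a b : Fin k → V) (Q : (i : Fin k) → G.Walk (a i) (b i)),
    (∀ i, (Q i).IsPath ∧ ∀ x ∈ Set.range τ, x ∈ (Q i).support) ∧
    (∀ i j, i ≠ j →
      (∀ x, x ∈ (Q i).support → x ∈ (Q j).support → x ∈ Set.range τ) ∧
      (∀ e, e ∈ (Q i).edges → e ∉ (Q j).edges))

/-- the path system statement of the problem -/
def PathSys (t k : ℕ) : Prop := ∀ (V : Type) (G : SimpleGraph V), Finite V →
      (k * (t - 1) + 1 ≤ Nat.card V ∧
        ∀ X : Finset V, X.card < k * (t - 1) → (G.induce ((↑X : Set V)ᶜ)).Connected) →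
      (max t (k + 1) ≤ Nat.card V ∧
        ∀ A : Finset V, A.card = t →
          ∃ (a b : Fin k → V) (P : (i : Fin k) → G.Walk (a i) (b i)),
            (∀ i, (P i).IsPath ∧ ∀ x ∈ A, x ∈ (P i).support) ∧
            (∀ i j, i ≠ j →
              (∀ x, x ∈ (P i).support → x ∈ (P j).support → x ∈ A) ∧
              (∀ e, e ∈ (P i).edges → e ∉ (P j).edges)))

/-- the lower bound graph `K_{m,M}`, `m = k(t-1)-1`, `A` in the large side -/
def S_LB : Prop := ∀ t k : ℕ, 3 ≤ t → 2 ≤ k → ∃ (V : Type) (G : SimpleGraph V), Finite V ∧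
      (k * (t - 1) ≤ Nat.card V ∧
        ∀ X : Finset V, X.card < k * (t - 1) - 1 → (G.induce ((↑X : Set V)ᶜ)).Connected) ∧
      ¬ (max t (k + 1) ≤ Nat.card V ∧
        ∀ A : Finset V, A.card = t →
          ∃ (a b : Fin k → V) (P : (i : Fin k) → G.Walk (a i) (b i)),
            (∀ i, (P i).IsPath ∧ ∀ x ∈ A, x ∈ (P i).support) ∧
            (∀ i j, i ≠ j →
              (∀ x, x ∈ (P i).support → x ∈ (P j).support → x ∈ A) ∧
              (∀ e, e ∈ (P i).edges → e ∉ (P j).edges)))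

/-- assembly -/
def S_FIN : Prop := ∀ t k : ℕ, 3 ≤ t → 2 ≤ k → Game t k → PathSys t k

def S_G5 : Prop := ∀ k, 1 ≤ k → GameE 5 k

def S_G6 : Prop := ∀ k, 1 ≤ k → GameE 6 k

end HG
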