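import Pool.Agent.H16.HG.Defs

/-! Encoding small multisets of pairs by natural numbers; local updates of a state. -/

set_option autoImplicit false

namespace HG.Gm

open Finset

def tri (a b : ℕ) : ℕ := bif Nat.ble a b then a + b * (b + 1) / 2 else b + a * (a + 1) / 2

def W (a b : ℕ) : ℕ := 2 ^ (5 * tri a b)

theorem tri_comm (a b : ℕ) : tri a b = tri b a := by
  unfold tri
  rcases lt_trichotomy a b with h | h | h
  · have h1 : Nat.ble a b = true := by simpa using h.le
    have h2 : Nat.ble b a = false := by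
      rw [Bool.eq_false_iff]; simpa using h
    rw [h1, h2]; rfl
  · subst h; rfl
  · have h1 : Nat.ble b a = true := by simpa using h.le
    have h2 : Nat.ble a b = false := by
      rw [Bool.eq_false_iff]; simpa using h
    rw [h1, h2]; rfl

theorem W_comm (a b : ℕ) : W a b = W b a := by unfold W; rw [tri_comm]

/-- `b(b+1)/2` -/
theorem tri_succ (b : ℕ) : (b + 1) * (b + 1 + 1) / 2 = b * (b + 1) / 2 + (b + 1) := by
  have : (b + 1) * (b + 1 + 1) = b * (b + 1) + (b + 1) * 2 := by ring
  rw [this, Nat.add_mul_div_right _ _ (by norm_num)]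

theorem tri_mono {b d : ℕ} (h : b < d) : b * (b + 1) / 2 + b < d * (d + 1) / 2 := by
  induction d with
  | zero => omega
  | succ d ih =>
    rw [tri_succ]
    rcases Nat.lt_succ_iff_lt_or_eq.mp h with h1 | h1
    · have := ih h1; omega
    · subst h1; omega

theorem tri_le (a b : ℕ) (h : a ≤ b) : tri a b = a + b * (b + 1) / 2 := by
  unfold tri
  have h1 : Nat.ble a b = true := by simpa using h
  rw [h1]; rfl

theorem tri_inj_le {a b c d : ℕ} (h1 : a ≤ b) (h2 : c ≤ d) (h : tri a b = tri c d) : a = c ∧ b = d := by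
  rw [tri_le _ _ h1, tri_le _ _ h2] at h
  rcases lt_trichotomy b d with h3 | h3 | h3
  · have := tri_mono h3; omega
  · subst h3; omega
  · have := tri_mono h3; omega

/-- index of an unordered pair -/
def ix {t : ℕ} (e : Sym2 (Fin t)) : ℕ := Sym2.lift ⟨fun a b => tri a.1 b.1, fun _ _ => tri_comm _ _⟩ e

theorem ix_mk {t : ℕ} (a b : Fin t) : ix s(a, b) = tri a.1 b.1 := rfl

theorem ix_inj {t : ℕ} : Function.Injective (ix (t := t)) := by
  intro e f
  induction e with | _ a b =>
  induction f with | _ c d =>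
  rw [ix_mk, ix_mk]
  intro h
  rcases le_total a.1 b.1 with h1 | h1 <;> rcases le_total c.1 d.1 with h2 | h2
  · obtain ⟨h3, h4⟩ := tri_inj_le h1 h2 h
    rw [Fin.ext h3, Fin.ext h4]
  · rw [tri_comm c.1 d.1] at h
    obtain ⟨h3, h4⟩ := tri_inj_le h1 h2 h
    rw [Fin.ext h3, Fin.ext h4, Sym2.eq_swap]
  · rw [tri_comm a.1 b.1] at h
    obtain ⟨h3, h4⟩ := tri_inj_le h1 h2 h
    rw [Fin.ext h3, Fin.ext h4, Sym2.eq_swap]
  · rw [tri_comm a.1 b.1, tri_comm c.1 d.1] at h
    obtain ⟨h3, h4⟩ := tri_inj_le h1 h2 h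
    rw [Fin.ext h3, Fin.ext h4]

/-- code of a multiset of pairs -/
def enc {t : ℕ} (M : Multiset (Sym2 (Fin t))) : ℕ := (M.map fun e => 2 ^ (5 * ix e)).sum

theorem enc_add {t : ℕ} (M M' : Multiset (Sym2 (Fin t))) : enc (M + M') = enc M + enc M' := by
  simp [enc]

theorem enc_zero {t : ℕ} : enc (0 : Multiset (Sym2 (Fin t))) = 0 := by simp [enc]

theorem enc_single {t : ℕ} (a b : Fin t) : enc {s(a, b)} = W a.1 b.1 := by
  simp [enc, ix_mk, W]

theorem enc_sum {t : ℕ} {ι : Type} (s : Finset ι) (f : ι → Multiset (Sym2 (Fin t))) :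
    enc (∑ i ∈ s, f i) = ∑ i ∈ s, enc (f i) := by
  classical
  induction s using Finset.induction_on with
  | empty => simp [enc_zero]
  | insert a s ha ih => rw [sum_insert ha, sum_insert ha, enc_add, ih]

theorem digits_eq (n : ℕ) : ∀ (c d : ℕ → ℕ), (∀ j, c j < 32) → (∀ j, d j < 32) →
    ∑ j ∈ range n, c j * 32 ^ j = ∑ j ∈ range n, d j * 32 ^ j → ∀ j < n, c j = d j := by
  induction n with
  | zero => intro c d _ _ _ j hj; omega
  | succ n ih =>
    intro c d hc hd h
    rw [sum_range_succ', sum_range_succ'] at h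
    have e1 : ∀ f : ℕ → ℕ, ∑ j ∈ range n, f (j + 1) * 32 ^ (j + 1) = 32 * ∑ j ∈ range n, f (j + 1) * 32 ^ j := by
      intro f
      rw [mul_sum]
      apply sum_congr rfl
      intro j _
      rw [pow_succ]; ring
    rw [e1, e1] at h
    simp only [pow_zero, mul_one] at h
    have h0 := hc 0
    have h0' := hd 0
    have h1 : c 0 = d 0 ∧ ∑ j ∈ range n, c (j + 1) * 32 ^ j = ∑ j ∈ range n, d (j + 1) * 32 ^ j := by omega
    intro j hj
    cases j with
    | zero => exact h1.1
    | succ j =>
      exact ih (fun j => c (j + 1)) (fun j => d (j + 1)) (fun j => hc _) (fun j => hd _) h1.2 j (by omega)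

theorem enc_eq_sum {t : ℕ} (N : ℕ) (M : Multiset (Sym2 (Fin t))) (hN : ∀ e ∈ M, ix e < N) :
    enc M = ∑ j ∈ range N, (M.countP fun e => ix e = j) * 32 ^ j := by
  induction M using Multiset.induction_on with
  | empty => simp [enc]
  | cons a M ih =>
    have h1 : enc (a ::ₘ M) = 2 ^ (5 * ix a) + enc M := by simp [enc]
    rw [h1, ih (fun e he => hN e (Multiset.mem_cons_of_mem he))]
    have h2 : ∀ j, (Multiset.countP (fun e => ix e = j) (a ::ₘ M)) * 32 ^ j =
        (if ix a = j then 32 ^ j else 0) + (Multiset.countP (fun e => ix e = j) M) * 32 ^ j := by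
      intro j
      rw [Multiset.countP_cons]
      split_ifs <;> ring
    simp only [h2]
    rw [sum_add_distrib, sum_ite_eq]
    have h3 := hN a (Multiset.mem_cons_self _ _)
    rw [if_pos (mem_range.mpr h3), pow_mul]
    norm_num

theorem enc_inj {t : ℕ} (M M' : Multiset (Sym2 (Fin t))) (h1 : Multiset.card M < 32)
    (h2 : Multiset.card M' < 32) (h : enc M = enc M') : M = M' := by
  classical
  obtain ⟨N, hN⟩ : ∃ N, ∀ e : Sym2 (Fin t), ix e < N := by
    refine ⟨(univ.sup ix) + 1, fun e => Nat.lt_succ_of_le (Finset.le_sup (f := ix) (mem_univ e))⟩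
  rw [enc_eq_sum N M (fun e _ => hN e), enc_eq_sum N M' (fun e _ => hN e)] at h
  have h3 := digits_eq N _ _ (fun j => lt_of_le_of_lt (Multiset.countP_le_card _ _) h1)
    (fun j => lt_of_le_of_lt (Multiset.countP_le_card _ _) h2) h
  ext e
  have h4 := h3 (ix e) (hN e)
  have h5 : ∀ L : Multiset (Sym2 (Fin t)), L.count e = L.countP (fun e' => ix e' = ix e) := by
    intro L
    unfold Multiset.count
    apply Multiset.countP_congr rfl
    intro x _
    apply propext
    constructor
    · intro hx; exact congrArg ix hx.symm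
    · intro hx; exact (ix_inj hx).symm
  rw [h5, h5, h4]

/-- updating a state at the indices of a list -/
def upd {k : ℕ} (T : Fin k → ℕ) : List (Fin k) → List ℕ → Fin k → ℕ
  | q :: Q, s :: S => Function.update (upd T Q S) q s
  | _, _ => T

theorem upd_other {k : ℕ} (T : Fin k → ℕ) : ∀ (Q : List (Fin k)) (S : List ℕ) (i : Fin k), i ∉ Q →
    upd T Q S i = T i
  | [], S, i, _ => by simp [upd]
  | q :: Q, [], i, _ => by simp [upd]
  | q :: Q, s :: S, i, h => by
    rw [upd, Function.update_of_ne (by rintro rfl; simp at h)]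
    exact upd_other T Q S i (fun h' => h (List.mem_cons_of_mem _ h'))

theorem upd_lt {k n : ℕ} (T : Fin k → ℕ) (hT : ∀ i, T i < n) : ∀ (Q : List (Fin k)) (S : List ℕ),
    (∀ s ∈ S, s < n) → ∀ i, upd T Q S i < n
  | [], S, _, i => by simpa [upd] using hT i
  | q :: Q, [], _, i => by simpa [upd] using hT i
  | q :: Q, s :: S, h, i => by
    rw [upd]
    by_cases hi : i = q
    · subst hi; rw [Function.update_self]; exact h s (by simp)
    · rw [Function.update_of_ne hi]; exact upd_lt T hT Q S (fun s hs => h s (by simp [hs])) i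

theorem upd_sum {k : ℕ} {M : Type} [AddCommMonoid M] [IsCancelAdd M] (F : ℕ → M) (T : Fin k → ℕ) :
    ∀ (Q : List (Fin k)) (S : List ℕ), Q.Nodup → Q.length = S.length →
    ∑ i, F (upd T Q S i) + (Q.map fun i => F (T i)).sum = ∑ i, F (T i) + (S.map F).sum
  | [], [], _, _ => by simp [upd]
  | q :: Q, s :: S, hQ, hl => by
    rw [List.nodup_cons] at hQ
    have ih := upd_sum F T Q S hQ.2 (by simpa using hl)
    rw [upd, ← Finset.add_sum_erase _ _ (mem_univ q), Function.update_self]
    have h1 : ∑ x ∈ univ.erase q, F (Function.update (upd T Q S) q s x) =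
        ∑ x ∈ univ.erase q, F (upd T Q S x) := by
      apply sum_congr rfl
      intro x hx
      rw [Function.update_of_ne (ne_of_mem_erase hx)]
    rw [h1, List.map_cons, List.sum_cons, List.map_cons, List.sum_cons]
    rw [← Finset.add_sum_erase _ (fun i => F (upd T Q S i)) (mem_univ q), upd_other T Q S q hQ.1] at ih
    calc F s + ∑ x ∈ univ.erase q, F (upd T Q S x) + (F (T q) + (Q.map fun i => F (T i)).sum)
        = F s + (F (T q) + ∑ x ∈ univ.erase q, F (upd T Q S x) + (Q.map fun i => F (T i)).sum) := by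
          abel
      _ = F s + (∑ i, F (T i) + (S.map F).sum) := by rw [ih]
      _ = _ := by abel
  | [], s :: S, _, hl => by simp at hl
  | q :: Q, [], _, hl => by simp at hl

end HG.Gm
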