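import Pool.Agent.H16.HG.G5P0

set_option autoImplicit false

namespace HG.Gm.G5

theorem game (k : ℕ) : GameE 5 k := by
  refine win dat_V (ctxs := ctxs) (chkCov_spec dat 5 ctxs cov ?_) k
  intro C hC
  simp only [ctxs, List.mem_cons, List.not_mem_nil, or_false] at hC
  rcases hC with rfl | rfl
  · exact c0
  · exact c1

end HG.Gm.G5

theorem HG.G5_proved : HG.S_G5 := fun k _ => HG.Gm.G5.game k
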