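import Pool.Agent.H16.HG.G6P0
import Pool.Agent.H16.HG.G6P1
import Pool.Agent.H16.HG.G6P2
import Pool.Agent.H16.HG.G6P3
import Pool.Agent.H16.HG.G6P4
import Pool.Agent.H16.HG.G6P5
import Pool.Agent.H16.HG.G6P6
import Pool.Agent.H16.HG.G6P7
import Pool.Agent.H16.HG.G6P8
import Pool.Agent.H16.HG.G6P9
import Pool.Agent.H16.HG.G6P10
import Pool.Agent.H16.HG.G6P11

set_option autoImplicit false

namespace HG.Gm.G6

theorem game (k : ℕ) : GameE 6 k := by
  refine win dat_V (ctxs := ctxs) (chkCov_spec dat 6 ctxs cov ?_) k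
  intro C hC
  simp only [ctxs, List.mem_cons, List.not_mem_nil, or_false] at hC
  rcases hC with rfl | rfl | rfl | rfl | rfl | rfl | rfl | rfl | rfl | rfl | rfl | rfl | rfl | rfl | rfl | rfl | rfl | rfl | rfl | rfl | rfl | rfl | rfl | rfl | rfl | rfl | rfl | rfl | rfl | rfl | rfl | rfl | rfl | rfl
  · exact c0
  · exact c1
  · exact c2
  · exact c3
  · exact c4
  · exact c5
  · exact c6
  · exact c7
  · exact c8
  · exact c9
  · exact c10
  · exact c11
  · exact c12
  · exact c13
  · exact c14
  · exact c15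
  · exact c16
  · exact c17
  · exact c18
  · exact c19
  · exact c20
  · exact c21
  · exact c22
  · exact c23
  · exact c24
  · exact c25
  · exact c26
  · exact c27
  · exact c28
  · exact c29
  · exact c30
  · exact c31
  · exact c32
  · exact c33

end HG.Gm.G6

theorem HG.G6_proved : HG.S_G6 := fun k _ => HG.Gm.G6.game k
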