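import Pool.Agent.H16.HG.Defs
import Pool.Agent.H63.Hager.SPg
import Pool.Agent.H60.HG.WK
import Pool.Agent.H60.HG.RI
import Pool.Agent.H66.HG.EX

/-!
The path systems of the problem from the abstract game.
-/

set_option autoImplicit false

namespace HG

open Finset

theorem pathSys_of_game (t k : ℕ) (ht : 2 ≤ t) (hk : 1 ≤ k) (hgame : Game t k) : PathSys t k := by
  intro V G hV ⟨hcard, hcon⟩
  haveI := hV
  have h1 : t - 1 ≤ k * (t - 1) := Nat.le_mul_of_pos_left _ (by omega)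
  have h2 : k ≤ k * (t - 1) := Nat.le_mul_of_pos_right _ (by omega)
  refine ⟨max_le (by omega) (by omega), ?_⟩
  intro A hA
  let e : Fin t ≃ A := (Finset.equivFinOfCardEq hA).symm
  let τ : Fin t → V := fun i => (e i : V)
  have hτ : Function.Injective τ := fun i j hij => e.injective (Subtype.ext hij)
  have hrange : ∀ x, x ∈ A ↔ x ∈ Set.range τ := by
    intro x
    constructor
    · intro hx
      exact ⟨e.symm ⟨x, hx⟩, by simp [τ]⟩
    · rintro ⟨i, rfl⟩
      exact (e i).2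
  have hGX : GX t k (netOf G τ).Real :=
    Pool.Agent.H63.Hager.GXG t k V G τ hτ hcard hcon
  have h0 : (netOf G τ).Real 0 :=
    ⟨0, fun i => i.elim0, by simp, fun i => i.elim0, fun i => i.elim0, fun i => i.elim0⟩
  obtain ⟨P, hP1, hP2⟩ := hgame (netOf G τ).Real h0 (MON_proved t _) hGX
  obtain ⟨a, b, Q, hQ1, hQ2⟩ := WK_proved t k V G τ ht hτ P hP1 hP2
  refine ⟨a, b, Q, ?_, ?_⟩
  · intro i
    exact ⟨(hQ1 i).1, fun x hx => (hQ1 i).2 x ((hrange x).1 hx)⟩
  · intro i j hij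
    exact ⟨fun x hx hx' => (hrange x).2 ((hQ2 i j hij).1 x hx hx'), (hQ2 i j hij).2⟩

theorem game_of_gameE (t k : ℕ) (hk : 1 ≤ k) (h : GameE t k) : Game t k :=
  fun Real h0 hM hG => h Real hM (ST_proved t k Real hk h0 hM hG) (EX_proved t k Real hM hG)

theorem pathSys_of_gameE (t k : ℕ) (ht : 2 ≤ t) (hk : 1 ≤ k) (h : GameE t k) : PathSys t k :=
  pathSys_of_game t k ht hk (game_of_gameE t k hk h)

end HG
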