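import Pool.Agent.H16.HG.Enc

/-! The finite strategy: soundness of the certificate. -/

set_option autoImplicit false

namespace HG.Gm

open Finset

structure Dat where
  n : ℕ
  par : ℕ → ℕ → ℕ → ℕ
  code : ℕ → ℕ
  phi : ℕ → ℕ
  act : ℕ → ℕ → ℕ
  gen : ℕ → ℕ
  rk : ℕ → ℕ
  ham : ℕ → List ℕ
  st : ℕ

def sumN : ℕ → (ℕ → ℕ) → ℕ
  | 0, _ => 0
  | m + 1, f => sumN m f + f m

theorem sumN_eq (t : ℕ) (f : ℕ → ℕ) : sumN t f = ∑ v : Fin t, f v.1 := by
  rw [Fin.sum_univ_eq_sum_range (fun v => f v) t]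
  induction t with
  | zero => rfl
  | succ t ih => rw [sumN, ih, sum_range_succ]

/-- the transposition `g ↔ g+1` -/
def sw (g v : ℕ) : ℕ := bif Nat.beq v g then g + 1 else bif Nat.beq v (g + 1) then g else v

/-- code of a path -/
def pe : List ℕ → ℕ
  | a :: b :: r => W a b + pe (b :: r)
  | _ => 0

structure Dat.V (D : Dat) (t : ℕ) : Prop where
  t2 : 2 ≤ t
  t6 : t ≤ 6
  v1 : ∀ l < D.n, ∀ w < t, ∀ v < t, v ≠ w → D.par w l v < t ∧ D.par w l v ≠ v
  v2 : ∀ l < D.n, ∀ w < t, sumN t (fun v => bif Nat.beq v w then 0 else W v (D.par w l v)) = D.code l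
  v3 : ∀ l < D.n, ∀ g, 1 ≤ g → g + 1 < t → D.act g l < D.n ∧ D.phi (D.act g l) = D.phi l ∧
    sumN t (fun v => bif Nat.beq v 0 then 0 else W (sw g v) (sw g (D.par 0 l v))) = D.code (D.act g l)
  v4 : ∀ l < D.n, D.phi l < 300 → (D.ham l).Nodup ∧ (∀ x ∈ D.ham l, x < t) ∧ (D.ham l).length = t ∧
    pe (D.ham l) = D.code l
  v5 : D.st < D.n ∧ D.code D.st = sumN t (fun v => bif Nat.beq v 0 then 0 else W v 0)

section

variable (D : Dat) {t : ℕ}

def Dat.fp (w : Fin t) (l : ℕ) (v : Fin t) : Fin t :=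
  if h : D.par w.1 l v.1 < t then ⟨D.par w.1 l v.1, h⟩ else v

/-- edges of the tree `l`, directed to `w` -/
def Dat.Ew (w : Fin t) (l : ℕ) : Multiset (Sym2 (Fin t)) := ∑ v ∈ univ.erase w, {s(v, D.fp w l v)}

def Dat.E (t : ℕ) (h : 0 < t) (l : ℕ) : Multiset (Sym2 (Fin t)) := D.Ew (⟨0, h⟩ : Fin t) l

variable {D}

theorem fp_val (hV : D.V t) {l : ℕ} (hl : l < D.n) (w v : Fin t) (h : v ≠ w) :
    (D.fp w l v).1 = D.par w.1 l v.1 := by
  have := (hV.v1 l hl w.1 w.2 v.1 v.2 (fun h' => h (Fin.ext h'))).1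
  unfold Dat.fp
  rw [dif_pos this]

theorem sum_erase_if {M : Type} [AddCommMonoid M] (w : Fin t) (F : Fin t → M) :
    ∑ v ∈ univ.erase w, F v = ∑ v, if v = w then 0 else F v := by
  rw [← Finset.add_sum_erase univ (fun v => if v = w then 0 else F v) (mem_univ w), if_pos rfl, zero_add]
  apply sum_congr rfl
  intro v hv
  rw [if_neg (ne_of_mem_erase hv)]

theorem enc_erase (w : Fin t) (a b : Fin t → Fin t) (f g : ℕ → ℕ) (hf : ∀ v, v ≠ w → (a v).1 = f v.1)
    (hg : ∀ v, v ≠ w → (b v).1 = g v.1) :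
    enc (∑ v ∈ univ.erase w, {s(a v, b v)}) =
      sumN t (fun v => bif Nat.beq v w.1 then 0 else W (f v) (g v)) := by
  rw [enc_sum, sum_erase_if, sumN_eq]
  apply sum_congr rfl
  intro v _
  by_cases h : v = w
  · subst h
    simp
  · have h1 : Nat.beq v.1 w.1 = false := by
      rw [Bool.eq_false_iff]
      intro h'
      exact h (Fin.ext (Nat.eq_of_beq_eq_true h'))
    rw [if_neg h, h1, enc_single, hf v h, hg v h]
    rfl

theorem enc_Ew (hV : D.V t) {l : ℕ} (hl : l < D.n) (w : Fin t) : enc (D.Ew w l) = D.code l := by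
  unfold Dat.Ew
  rw [enc_erase w (fun v => v) (fun v => D.fp w l v) (fun v => v) (fun v => D.par w.1 l v)
    (fun v _ => rfl) (fun v h => fp_val hV hl w v h)]
  exact hV.v2 l hl w.1 w.2

theorem card_erase_sum (w : Fin t) (F : Fin t → Sym2 (Fin t)) :
    Multiset.card (∑ v ∈ univ.erase w, ({F v} : Multiset (Sym2 (Fin t)))) = t - 1 := by
  rw [Multiset.card_sum]
  simp

theorem card_Ew (w : Fin t) (l : ℕ) : Multiset.card (D.Ew w l) = t - 1 := card_erase_sum _ _

theorem Ew_eq (hV : D.V t) (h0 : 0 < t) {l : ℕ} (hl : l < D.n) (w : Fin t) : D.Ew w l = D.E t h0 l := by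
  have h6 := hV.t6
  apply enc_inj
  · rw [card_Ew]; omega
  · unfold Dat.E; rw [card_Ew]; omega
  · unfold Dat.E; rw [enc_Ew hV hl, enc_Ew hV hl]

theorem enc_E (hV : D.V t) (h0 : 0 < t) {l : ℕ} (hl : l < D.n) : enc (D.E t h0 l) = D.code l :=
  enc_Ew hV hl _

theorem card_E (h0 : 0 < t) (l : ℕ) : Multiset.card (D.E t h0 l) = t - 1 := card_Ew _ _

/-- a local exchange -/
def HitP (D : Dat) (t : ℕ) (S : List ℕ) (w v f : ℕ) (S' : List ℕ) (a b : ℕ) : Prop :=
  S'.length = S.length ∧ (∀ s ∈ S', s < D.n) ∧ a < t ∧ b < t ∧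
    (S'.map D.code).sum + (W a b + W v f) = (S.map D.code).sum + (W w v + W w f) ∧
    (S'.map D.phi).sum < (S.map D.phi).sum

structure Ctx where
  S : List ℕ
  w : ℕ
  op : ℕ
  oa : ℕ
  on : ℕ
  exc : List ℕ

structure CtxP (D : Dat) (t : ℕ) (C : Ctx) : Prop where
  hlen : C.S.length ≤ 2
  hw : C.w < t
  hS : ∀ l ∈ C.S, ∀ v < t, v ≠ C.w → D.par C.w l v = C.w ∨
    ∃ S' a b, HitP D t C.S C.w v (D.par C.w l v) S' a b
  hL : ∀ l < D.n, l ∉ C.exc → ∀ v < t, v ≠ C.w → D.par C.w l v = C.w ∨
    ∃ S' a b, HitP D t (C.S ++ [l]) C.w v (D.par C.w l v) S' a b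
  ho : ∃ l ∈ C.S[C.op]?, C.oa < t ∧ C.oa ≠ C.w ∧ D.par C.w l C.oa ≠ C.w ∧ C.on < D.n ∧
    D.code C.on + W C.oa (D.par C.w l C.oa) = D.code l + W C.oa C.w ∧ D.phi C.on < D.phi l

def Improve (D : Dat) (t k : ℕ) (h0 : 0 < t) (T : Fin k → ℕ) : Prop :=
  ∀ Real : Multiset (Sym2 (Fin t)) → Prop, Mon Real → EX t k Real → Real (∑ i, D.E t h0 (T i)) →
    ∃ T' : Fin k → ℕ, (∀ i, T' i < D.n) ∧ ∑ i, D.phi (T' i) < ∑ i, D.phi (T i) ∧
      Real (∑ i, D.E t h0 (T' i))

theorem enc_listsum (hV : D.V t) (h0 : 0 < t) : ∀ (S : List ℕ), (∀ s ∈ S, s < D.n) →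
    enc ((S.map (D.E t h0)).sum) = (S.map D.code).sum
  | [], _ => by simp [enc_zero]
  | a :: S, h => by
    rw [List.map_cons, List.sum_cons, enc_add, enc_listsum hV h0 S (fun s hs => h s (by simp [hs])),
      enc_E hV h0 (h a (by simp))]
    simp

theorem card_listsum (h0 : 0 < t) : ∀ (S : List ℕ),
    Multiset.card ((S.map (D.E t h0)).sum) = S.length * (t - 1)
  | [] => by simp
  | a :: S => by
    rw [List.map_cons, List.sum_cons, Multiset.card_add, card_listsum h0 S, card_E]
    simp; ring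

/-- applying a local exchange after a double hit -/
theorem hit_apply (hV : D.V t) (h0 : 0 < t) {k : ℕ} (T : Fin k → ℕ) (hT : ∀ i, T i < D.n)
    (Q : List (Fin k)) (hQ : Q.Nodup) (hQ3 : Q.length ≤ 3) (w v f : Fin t) (S' : List ℕ) (a b : ℕ)
    (hH : HitP D t (Q.map T) w.1 v.1 f.1 S' a b)
    (Real : Multiset (Sym2 (Fin t)) → Prop) (hM : Mon Real) (hmem : s(v, f) ∈ ∑ i, D.E t h0 (T i))
    (hR : Real ((∑ i, D.E t h0 (T i)).erase s(v, f) + {s(w, v), s(w, f)})) :
    ∃ T' : Fin k → ℕ, (∀ i, T' i < D.n) ∧ ∑ i, D.phi (T' i) < ∑ i, D.phi (T i) ∧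
      Real (∑ i, D.E t h0 (T' i)) := by
  obtain ⟨hl, hn, ha, hb, he, hp⟩ := hH
  have hlen : Q.length = S'.length := by rw [hl, List.length_map]
  refine ⟨upd T Q S', upd_lt T hT Q S' hn, ?_, ?_⟩
  · have h1 := upd_sum D.phi T Q S' hQ hlen
    have h2 : (Q.map fun i => D.phi (T i)) = (Q.map T).map D.phi := by simp
    rw [h2] at h1
    omega
  · -- multiset identity of the local parts
    have hloc : (S'.map (D.E t h0)).sum + ({s((⟨a, ha⟩ : Fin t), ⟨b, hb⟩)} + {s(v, f)}) =
        ((Q.map T).map (D.E t h0)).sum + ({s(w, v)} + {s(w, f)}) := by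
      have h6 := hV.t6
      have h2 := hV.t2
      have h7 : Q.length * (t - 1) ≤ 3 * 5 := Nat.mul_le_mul hQ3 (by omega)
      apply enc_inj
      · rw [Multiset.card_add, card_listsum, ← hlen]
        simp only [Multiset.card_add, Multiset.card_singleton]; omega
      · rw [Multiset.card_add, card_listsum, List.length_map]
        simp only [Multiset.card_add, Multiset.card_singleton]; omega
      · rw [enc_add, enc_add, enc_add, enc_add, enc_listsum hV h0 _ hn,
          enc_listsum hV h0 _ (by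
            intro s hs
            obtain ⟨i, _, rfl⟩ := List.mem_map.mp hs
            exact hT i), enc_single, enc_single, enc_single, enc_single]
        exact he
    have hsum := upd_sum (D.E t h0) T Q S' hQ hlen
    have h2 : (Q.map fun i => D.E t h0 (T i)) = (Q.map T).map (D.E t h0) := by simp
    rw [h2] at hsum
    -- total identity
    have htot : ∑ i, D.E t h0 (upd T Q S' i) + ({s((⟨a, ha⟩ : Fin t), ⟨b, hb⟩)} + {s(v, f)}) =
        ∑ i, D.E t h0 (T i) + ({s(w, v)} + {s(w, f)}) := by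
      have h3 : (∑ i, D.E t h0 (upd T Q S' i) + ({s((⟨a, ha⟩ : Fin t), ⟨b, hb⟩)} + {s(v, f)})) +
          ((Q.map T).map (D.E t h0)).sum =
          (∑ i, D.E t h0 (T i) + ({s(w, v)} + {s(w, f)})) + ((Q.map T).map (D.E t h0)).sum := by
        calc _ = (∑ i, D.E t h0 (upd T Q S' i) + ((Q.map T).map (D.E t h0)).sum) +
              ({s((⟨a, ha⟩ : Fin t), ⟨b, hb⟩)} + {s(v, f)}) := by abel
          _ = (∑ i, D.E t h0 (T i)) + ((S'.map (D.E t h0)).sum +
              ({s((⟨a, ha⟩ : Fin t), ⟨b, hb⟩)} + {s(v, f)})) := by rw [hsum]; abel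
          _ = _ := by rw [hloc]; abel
      exact add_right_cancel h3
    have hfin : (∑ i, D.E t h0 (T i)).erase s(v, f) + {s(w, v), s(w, f)} =
        ∑ i, D.E t h0 (upd T Q S' i) + {s((⟨a, ha⟩ : Fin t), ⟨b, hb⟩)} := by
      have h4 : s(v, f) ::ₘ (∑ i, D.E t h0 (T i)).erase s(v, f) = ∑ i, D.E t h0 (T i) :=
        Multiset.cons_erase hmem
      have h5 : ((∑ i, D.E t h0 (T i)).erase s(v, f) + {s(w, v), s(w, f)}) + {s(v, f)} =
          (∑ i, D.E t h0 (upd T Q S' i) + {s((⟨a, ha⟩ : Fin t), ⟨b, hb⟩)}) + {s(v, f)} := by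
        rw [add_assoc (∑ i, D.E t h0 (upd T Q S' i)), htot, ← h4, Multiset.erase_cons_head,
          ← Multiset.singleton_add]
        have h6 : ({s(w, v), s(w, f)} : Multiset (Sym2 (Fin t))) = {s(w, v)} + {s(w, f)} := rfl
        rw [h6]; abel
      exact add_right_cancel h5
    rw [hfin] at hR
    exact hM _ _ (Multiset.le_add_right _ _) hR

theorem ctx_improve (hV : D.V t) (h0 : 0 < t) {C : Ctx} (hC : CtxP D t C) {k : ℕ} (T : Fin k → ℕ)
    (hT : ∀ i, T i < D.n) (Q : List (Fin k)) (hQ : Q.Nodup) (hS : Q.map T = C.S)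
    (hexc : ∀ i, i ∉ Q → T i ∉ C.exc) : Improve D t k h0 T := by
  intro Real hM hEX hR
  have hlen : Q.length ≤ 2 := by
    have := hC.hlen
    rw [← hS, List.length_map] at this
    exact this
  let w : Fin t := ⟨C.w, hC.hw⟩
  have hdir : dirSum w (fun i v => D.fp w (T i) v) = ∑ i, D.E t h0 (T i) := by
    unfold dirSum
    apply sum_congr rfl
    intro i _
    exact Ew_eq hV h0 (hT i) w
  have hne : ∀ (i : Fin k) (v : Fin t), v ≠ w → D.fp w (T i) v ≠ v := by
    intro i v hv h
    have h1 := fp_val hV (hT i) w v hv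
    have h2 := (hV.v1 (T i) (hT i) w.1 w.2 v.1 v.2 (fun h' => hv (Fin.ext h'))).2
    rw [h] at h1
    exact h2 h1.symm
  have hex := hEX w (fun i v => D.fp w (T i) v) hne (by rw [hdir]; exact hR)
  rw [hdir] at hex
  rcases hex with ⟨i, v, hv, hf, hR'⟩ | hO
  · -- a double hit in the tree `i`
    have hvw : v.1 ≠ C.w := fun h' => hv (Fin.ext h')
    have hpar : D.par C.w (T i) v.1 ≠ C.w := by
      intro h
      apply hf
      apply Fin.ext
      rw [fp_val hV (hT i) w v hv]
      exact h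
    have hmem : s(v, D.fp w (T i) v) ∈ ∑ i, D.E t h0 (T i) := by
      rw [Multiset.mem_sum]
      refine ⟨i, mem_univ _, ?_⟩
      rw [← Ew_eq hV h0 (hT i) w]
      unfold Dat.Ew
      rw [Multiset.mem_sum]
      exact ⟨v, mem_erase.mpr ⟨hv, mem_univ _⟩, Multiset.mem_singleton_self _⟩
    by_cases hi : i ∈ Q
    · rcases hC.hS (T i) (by rw [← hS]; exact List.mem_map_of_mem hi) v.1 v.2 hvw with h | ⟨S', a, b, hH⟩
      · exact absurd h hpar
      · refine hit_apply hV h0 T hT Q hQ (by omega) w v (D.fp w (T i) v) S' a b ?_ Real hM hmem hR'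
        rw [fp_val hV (hT i) w v hv, hS]
        exact hH
    · rcases hC.hL (T i) (hT i) (hexc i hi) v.1 v.2 hvw with h | ⟨S', a, b, hH⟩
      · exact absurd h hpar
      · refine hit_apply hV h0 T hT (Q ++ [i]) ?_ (by simp; omega) w v (D.fp w (T i) v) S' a b ?_ Real hM
          hmem hR'
        · rw [List.nodup_append]
          refine ⟨hQ, by simp, ?_⟩
          intro x hx y hy h
          simp only [List.mem_singleton] at hy
          subst hy; subst h; exact hi hx
        · rw [fp_val hV (hT i) w v hv, List.map_append, hS]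
          exact hH
  · -- all single exchanges
    obtain ⟨l, hl, hoa, how, hpar, hon, hcode, hphi⟩ := hC.ho
    rw [← hS] at hl
    have hl' : (Q.map T)[C.op]? = some l := hl
    rw [List.getElem?_map, Option.map_eq_some_iff] at hl'
    obtain ⟨j, _, hj⟩ := hl'
    let v0 : Fin t := ⟨C.oa, hoa⟩
    have hv0 : v0 ≠ w := fun h => how (congrArg Fin.val h)
    have hRO := hO (fun i => if i = j then {v0} else ∅)
    refine ⟨Function.update T j C.on, ?_, ?_, ?_⟩
    · intro i
      by_cases h : i = j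
      · subst h; rw [Function.update_self]; exact hon
      · rw [Function.update_of_ne h]; exact hT i
    · rw [← Finset.add_sum_erase univ (fun i => D.phi (Function.update T j C.on i)) (mem_univ j),
        ← Finset.add_sum_erase univ (fun i => D.phi (T i)) (mem_univ j), Function.update_self, hj]
      have : ∑ x ∈ univ.erase j, D.phi (Function.update T j C.on x) = ∑ x ∈ univ.erase j, D.phi (T x) := by
        apply sum_congr rfl
        intro x hx
        rw [Function.update_of_ne (ne_of_mem_erase hx)]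
      rw [this]
      omega
    · have hkey : dirSum w (fun (i : Fin k) v =>
          if v ∈ (if i = j then ({v0} : Finset (Fin t)) else ∅) then w else D.fp w (T i) v) =
          ∑ i, D.E t h0 (Function.update T j C.on i) := by
        unfold dirSum
        rw [← Finset.add_sum_erase univ (fun i => D.E t h0 (Function.update T j C.on i)) (mem_univ j),
          ← Finset.add_sum_erase univ _ (mem_univ j), Function.update_self]
        congr 1
        · -- the tree j
          simp only [if_true, mem_singleton]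
          have h6 := hV.t6
          apply enc_inj
          · rw [card_erase_sum]; omega
          · rw [card_E]; omega
          · rw [enc_E hV h0 hon]
            have e1 : enc (∑ v ∈ univ.erase w, {s(v, if v = v0 then w else D.fp w (T j) v)}) +
                W C.oa (D.par C.w l C.oa) = D.code l + W C.oa C.w := by
              have h7 : enc (D.Ew w (T j)) = D.code (T j) := enc_Ew hV (hT j) w
              unfold Dat.Ew at h7
              rw [enc_sum, ← Finset.add_sum_erase _ _ (mem_erase.mpr ⟨hv0, mem_univ _⟩)] at h7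
              rw [enc_sum, ← Finset.add_sum_erase _ _ (mem_erase.mpr ⟨hv0, mem_univ _⟩), if_pos rfl]
              have h8 : ∑ x ∈ (univ.erase w).erase v0, enc {s(x, if x = v0 then w else D.fp w (T j) x)} =
                  ∑ x ∈ (univ.erase w).erase v0, enc {s(x, D.fp w (T j) x)} := by
                apply sum_congr rfl
                intro x hx
                rw [if_neg (ne_of_mem_erase hx)]
              rw [h8, enc_single]
              rw [enc_single, fp_val hV (hT j) w v0 hv0] at h7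
              rw [hj] at h7 ⊢
              have h9 : W v0.1 (D.par w.1 l v0.1) = W C.oa (D.par C.w l C.oa) := rfl
              have h10 : W v0.1 w.1 = W C.oa C.w := rfl
              rw [h9] at h7
              rw [h10]
              omega
            omega
        · apply sum_congr rfl
          intro i hi
          have hij := ne_of_mem_erase hi
          rw [Function.update_of_ne hij]
          simp only [if_neg hij, notMem_empty, if_false]
          exact Ew_eq hV h0 (hT i) w
      rw [hkey] at hRO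
      exact hRO

end

end HG.Gm
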