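import Pool.Agent.H16.HG.Play

/-! Symmetry and the final argument. -/

set_option autoImplicit false

namespace HG.Gm

open Finset

section

variable {D : Dat} {t : ℕ}

theorem map_dirSum {k : ℕ} (σ : Equiv.Perm (Fin t)) (w : Fin t) (f : Fin k → Fin t → Fin t) :
    (dirSum w f).map (Sym2.map σ) = dirSum (σ w) (fun i v => σ (f i (σ.symm v))) := by
  unfold dirSum
  have h1 : ∀ M : Multiset (Sym2 (Fin t)), M.map (Sym2.map σ) =
      Multiset.mapAddMonoidHom (Sym2.map σ) M := fun _ => rfl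
  rw [h1, map_sum]
  apply sum_congr rfl
  intro i _
  rw [map_sum]
  refine Finset.sum_bij (fun v _ => σ v) ?_ ?_ ?_ ?_
  · intro v hv
    exact mem_erase.mpr ⟨fun h => ne_of_mem_erase hv (σ.injective h), mem_univ _⟩
  · intro a _ b _ h
    exact σ.injective h
  · intro b hb
    refine ⟨σ.symm b, mem_erase.mpr ⟨?_, mem_univ _⟩, by simp⟩
    intro h
    apply ne_of_mem_erase hb
    rw [← h]; simp
  · intro v _
    simp [← h1]

theorem EX_map {k : ℕ} (σ : Equiv.Perm (Fin t)) (Real : Multiset (Sym2 (Fin t)) → Prop)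
    (h : EX t k Real) : EX t k (fun M => Real (M.map (Sym2.map σ))) := by
  intro w f hne hR
  change Real ((dirSum w f).map (Sym2.map σ)) at hR
  rw [map_dirSum] at hR
  rcases h (σ w) _ (by
    intro i v hv h'
    have h1 : f i (σ.symm v) = σ.symm v := by
      apply σ.injective
      rw [h']; simp
    refine hne i (σ.symm v) ?_ h1
    intro h2
    apply hv
    rw [← h2]; simp) hR with ⟨i, v, hv, hf, hR'⟩ | hO
  · left
    refine ⟨i, σ.symm v, ?_, ?_, ?_⟩
    · intro h2; apply hv; rw [← h2]; simp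
    · intro h2
      apply hf
      rw [h2]
    · change Real (Multiset.map (Sym2.map σ) _)
      rw [Multiset.map_add, Multiset.map_erase _ (Sym2.map.injective σ.injective), map_dirSum]
      have e1 : Sym2.map σ s(σ.symm v, f i (σ.symm v)) = s(v, σ (f i (σ.symm v))) := by simp
      have e2 : ({s(w, σ.symm v), s(w, f i (σ.symm v))} : Multiset (Sym2 (Fin t))).map (Sym2.map σ) =
          {s(σ w, v), s(σ w, σ (f i (σ.symm v)))} := by
        have : ({s(w, σ.symm v), s(w, f i (σ.symm v))} : Multiset (Sym2 (Fin t))) =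
          s(w, σ.symm v) ::ₘ {s(w, f i (σ.symm v))} := rfl
        rw [this, Multiset.map_cons, Multiset.map_singleton]
        simp
      rw [e1, e2]
      exact hR'
  · right
    intro X
    change Real (Multiset.map (Sym2.map σ) _)
    rw [map_dirSum]
    have h3 := hO (fun i => (X i).map σ.toEmbedding)
    have h4 : (fun (i : Fin k) v => if v ∈ (X i).map σ.toEmbedding then σ w else σ (f i (σ.symm v))) =
        fun i v => σ (if σ.symm v ∈ X i then w else f i (σ.symm v)) := by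
      funext i v
      have h5 : v ∈ (X i).map σ.toEmbedding ↔ σ.symm v ∈ X i := by
        rw [Finset.mem_map]
        constructor
        · rintro ⟨a, ha, rfl⟩
          simpa using ha
        · intro h6
          exact ⟨σ.symm v, h6, by simp⟩
      by_cases h6 : σ.symm v ∈ X i
      · rw [if_pos h6, if_pos (h5.mpr h6)]
      · rw [if_neg h6, if_neg (fun h7 => h6 (h5.mp h7))]
    rw [h4] at h3
    exact h3

theorem Mon_map (σ : Equiv.Perm (Fin t)) (Real : Multiset (Sym2 (Fin t)) → Prop)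
    (h : Mon Real) : Mon (fun M => Real (M.map (Sym2.map σ))) :=
  fun _ _ hle hR => h _ _ (Multiset.map_le_map hle) hR

/-- the transposition as a permutation -/
def sF (g : ℕ) (h : g + 1 < t) : Equiv.Perm (Fin t) :=
  Equiv.swap ⟨g, by omega⟩ ⟨g + 1, h⟩

theorem sF_val (g : ℕ) (h : g + 1 < t) (v : Fin t) : (sF g h v).1 = sw g v.1 := by
  unfold sF sw
  by_cases h1 : v.1 = g
  · have h2 : v = ⟨g, by omega⟩ := Fin.ext h1
    have h3 : Nat.beq v.1 g = true := by rw [h1]; exact Nat.beq_refl g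
    rw [h3, h2, Equiv.swap_apply_left]; rfl
  · have h3 : Nat.beq v.1 g = false := by
      rw [Bool.eq_false_iff]; intro h'; exact h1 (Nat.eq_of_beq_eq_true h')
    rw [h3]
    by_cases h4 : v.1 = g + 1
    · have h2 : v = ⟨g + 1, h⟩ := Fin.ext h4
      have h5 : Nat.beq v.1 (g + 1) = true := by rw [h4]; exact Nat.beq_refl _
      rw [h5, h2, Equiv.swap_apply_right]; rfl
    · have h5 : Nat.beq v.1 (g + 1) = false := by
        rw [Bool.eq_false_iff]; intro h'; exact h4 (Nat.eq_of_beq_eq_true h')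
      rw [h5, Equiv.swap_apply_of_ne_of_ne (fun h' => h1 (congrArg Fin.val h'))
        (fun h' => h4 (congrArg Fin.val h'))]; rfl

theorem sF_sF (g : ℕ) (h : g + 1 < t) (v : Fin t) : sF g h (sF g h v) = v := by
  unfold sF
  exact Equiv.swap_apply_self _ _ _

theorem E_act (hV : D.V t) (h0 : 0 < t) {g l : ℕ} (hl : l < D.n) (h1 : 1 ≤ g) (h : g + 1 < t) :
    (D.E t h0 l).map (Sym2.map (sF g h)) = D.E t h0 (D.act g l) := by
  have h6 := hV.t6
  obtain ⟨ha, _, hc⟩ := hV.v3 l hl g h1 h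
  apply enc_inj
  · rw [Multiset.card_map, card_E]; omega
  · rw [card_E]; omega
  · rw [enc_E hV h0 ha, ← hc]
    have h2 : ∀ M : Multiset (Sym2 (Fin t)), M.map (Sym2.map (sF g h)) =
        Multiset.mapAddMonoidHom (Sym2.map (sF g h)) M := fun _ => rfl
    unfold Dat.E Dat.Ew
    rw [h2, map_sum]
    have h3 : ∀ v : Fin t, Multiset.mapAddMonoidHom (Sym2.map (sF g h))
        {s(v, D.fp ⟨0, h0⟩ l v)} = {s(sF g h v, sF g h (D.fp ⟨0, h0⟩ l v))} := by
      intro v
      rw [← h2]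
      simp
    simp only [h3]
    refine enc_erase (⟨0, h0⟩ : Fin t) (fun v => sF g h v) (fun v => sF g h (D.fp ⟨0, h0⟩ l v)) _
      (fun v => sw g (D.par 0 l v)) ?_ ?_
    · intro v _
      exact sF_val g h v
    · intro v hv
      rw [sF_val, fp_val hV hl _ v hv]

theorem map_E_sum (hV : D.V t) (h0 : 0 < t) {g k : ℕ} (h1 : 1 ≤ g) (h : g + 1 < t) (T : Fin k → ℕ)
    (hT : ∀ i, T i < D.n) : (∑ i, D.E t h0 (T i)).map (Sym2.map (sF g h)) =
      ∑ i, D.E t h0 (D.act g (T i)) := by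
  have h2 : ∀ M : Multiset (Sym2 (Fin t)), M.map (Sym2.map (sF g h)) =
      Multiset.mapAddMonoidHom (Sym2.map (sF g h)) M := fun _ => rfl
  rw [h2, map_sum]
  apply sum_congr rfl
  intro i _
  rw [← h2]
  exact E_act hV h0 (hT i) h1 h

theorem improve_act (hV : D.V t) (h0 : 0 < t) {g k : ℕ} (h1 : 1 ≤ g) (h : g + 1 < t) (T : Fin k → ℕ)
    (hT : ∀ i, T i < D.n) (hI : Improve D t k h0 (fun i => D.act g (T i))) : Improve D t k h0 T := by
  intro Real hM hEX hR
  have hinv : ∀ M : Multiset (Sym2 (Fin t)), (M.map (Sym2.map (sF g h))).map (Sym2.map (sF g h)) = M := by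
    intro M
    rw [Multiset.map_map]
    have : (Sym2.map (sF g h)) ∘ (Sym2.map (sF g h)) = id := by
      funext e
      induction e with | _ a b =>
      simp [sF_sF]
    rw [this, Multiset.map_id]
  obtain ⟨T', hT', hphi, hR'⟩ := hI (fun M => Real (M.map (Sym2.map (sF g h))))
    (Mon_map _ _ hM) (EX_map _ _ hEX) (by
      rw [← map_E_sum hV h0 h1 h T hT, hinv]
      exact hR)
  refine ⟨fun i => D.act g (T' i), fun i => (hV.v3 _ (hT' i) g h1 h).1, ?_, ?_⟩
  · have e1 : ∑ i, D.phi (D.act g (T' i)) = ∑ i, D.phi (T' i) :=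
      sum_congr rfl (fun i _ => (hV.v3 _ (hT' i) g h1 h).2.1)
    have e2 : ∑ i, D.phi (D.act g (T i)) = ∑ i, D.phi (T i) :=
      sum_congr rfl (fun i _ => (hV.v3 _ (hT i) g h1 h).2.1)
    rw [e1, ← e2]
    exact hphi
  · rw [map_E_sum hV h0 h1 h T' hT'] at hR'
    exact hR'

structure CovP (D : Dat) (t : ℕ) (ctxs : List Ctx) : Prop where
  hc : ∀ C ∈ ctxs, CtxP D t C
  cov : ∀ l < D.n, 300 ≤ D.phi l →
    (D.rk l = 0 → ∃ C ∈ ctxs, C.S = [l] ∧ ∀ x ∈ C.exc, ∃ C' ∈ ctxs, C'.S = [l, x] ∧ C'.exc = []) ∧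
    (D.rk l ≠ 0 → 1 ≤ D.gen l ∧ D.gen l + 1 < t ∧ D.rk (D.act (D.gen l) l) < D.rk l)

theorem improve_all (hV : D.V t) (h0 : 0 < t) {ctxs : List Ctx} (hCov : CovP D t ctxs) {k : ℕ} :
    ∀ (r : ℕ) (T : Fin k → ℕ), (∀ i, T i < D.n) → ∀ j, 300 ≤ D.phi (T j) → D.rk (T j) = r →
      Improve D t k h0 T := by
  intro r
  induction r using Nat.strong_induction_on with
  | _ r ih =>
  intro T hT j hj hr
  obtain ⟨hc0, hc1⟩ := hCov.cov (T j) (hT j) hj
  by_cases h : D.rk (T j) = 0
  · obtain ⟨C, hC, hCS, hex⟩ := hc0 h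
    by_cases h2 : ∃ i, i ≠ j ∧ T i ∈ C.exc
    · obtain ⟨i, hij, hi⟩ := h2
      obtain ⟨C', hC', hCS', hexc'⟩ := hex (T i) hi
      refine ctx_improve hV h0 (hCov.hc C' hC') T hT [j, i] ?_ ?_ ?_
      · simp [hij.symm]
      · rw [hCS']; rfl
      · intro i' _
        rw [hexc']; simp
    · push Not at h2
      refine ctx_improve hV h0 (hCov.hc C hC) T hT [j] (by simp) (by rw [hCS]; rfl) ?_
      intro i hi
      exact h2 i (by simpa using hi)
  · obtain ⟨hg1, hg2, hlt⟩ := hc1 h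
    apply improve_act hV h0 hg1 hg2 T hT
    refine ih (D.rk (D.act (D.gen (T j)) (T j))) (by rw [← hr]; exact hlt) _ ?_ j ?_ rfl
    · intro i
      exact (hV.v3 _ (hT i) _ hg1 hg2).1
    · rw [(hV.v3 _ (hT j) _ hg1 hg2).2.1]
      exact hj

theorem reach (hV : D.V t) (h0 : 0 < t) {ctxs : List Ctx} (hCov : CovP D t ctxs) {k : ℕ}
    (Real : Multiset (Sym2 (Fin t)) → Prop) (hM : Mon Real) (hEX : EX t k Real) :
    ∀ (m : ℕ) (T : Fin k → ℕ), (∀ i, T i < D.n) → ∑ i, D.phi (T i) = m → Real (∑ i, D.E t h0 (T i)) →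
      ∃ T' : Fin k → ℕ, (∀ i, T' i < D.n) ∧ (∀ i, D.phi (T' i) < 300) ∧ Real (∑ i, D.E t h0 (T' i)) := by
  intro m
  induction m using Nat.strong_induction_on with
  | _ m ih =>
  intro T hT hm hR
  by_cases h : ∃ j, 300 ≤ D.phi (T j)
  · obtain ⟨j, hj⟩ := h
    obtain ⟨T', hT', hlt, hR'⟩ := improve_all hV h0 hCov _ T hT j hj rfl Real hM hEX hR
    exact ih _ (by rw [← hm]; exact hlt) T' hT' rfl hR'
  · push Not at h
    exact ⟨T, hT, h, hR⟩

/-- the Hamilton path of the tree `l` -/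
def Dat.hl (D : Dat) (t : ℕ) (h0 : 0 < t) (l : ℕ) : List (Fin t) :=
  (D.ham l).map fun x => if h : x < t then ⟨x, h⟩ else ⟨0, h0⟩

theorem pathEdges_cons_cons (a b : Fin t) (r : List (Fin t)) :
    pathEdges (a :: b :: r) = {s(a, b)} + pathEdges (b :: r) := by
  simp [pathEdges]

theorem enc_pathEdges (h0 : 0 < t) : ∀ (L : List ℕ), (∀ x ∈ L, x < t) →
    enc (pathEdges (L.map fun x => if h : x < t then (⟨x, h⟩ : Fin t) else ⟨0, h0⟩)) = pe L
  | [], _ => by simp [pathEdges, enc_zero, pe]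
  | [a], _ => by simp [pathEdges, enc_zero, pe]
  | a :: b :: r, h => by
    rw [List.map_cons, List.map_cons, pathEdges_cons_cons, enc_add, enc_single, pe]
    have ha := h a (by simp)
    have hb := h b (by simp)
    rw [← enc_pathEdges h0 (b :: r) (fun x hx => h x (by simp [hx])), List.map_cons]
    congr 1
    rw [dif_pos ha, dif_pos hb]

theorem card_pathEdges : ∀ (L : List (Fin t)), Multiset.card (pathEdges L) = L.length - 1
  | [] => by simp [pathEdges]
  | [a] => by simp [pathEdges]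
  | a :: b :: r => by
    rw [pathEdges_cons_cons, Multiset.card_add, card_pathEdges (b :: r)]
    simp; omega

theorem win (hV : D.V t) {ctxs : List Ctx} (hCov : CovP D t ctxs) (k : ℕ) : GameE t k := by
  intro Real hM hstar hEX
  have h2 := hV.t2
  have h6 := hV.t6
  have h0 : 0 < t := by omega
  have hst : D.E t h0 D.st = ∑ v ∈ univ.erase (⟨0, h0⟩ : Fin t), {s(v, ⟨0, h0⟩)} := by
    apply enc_inj
    · rw [card_E]; omega
    · rw [card_erase_sum]; omega
    · rw [enc_E hV h0 hV.v5.1, hV.v5.2]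
      symm
      exact enc_erase (⟨0, h0⟩ : Fin t) (fun v => v) (fun _ => ⟨0, h0⟩) (fun v => v) (fun _ => 0)
        (fun v _ => rfl) (fun v _ => rfl)
  have hstart : Real (∑ i : Fin k, D.E t h0 ((fun _ => D.st) i)) := by
    have := hstar ⟨0, h0⟩
    unfold dirSum at this
    simp only [hst]
    exact this
  obtain ⟨T, hT, hphi, hR⟩ := reach hV h0 hCov Real hM hEX _ (fun _ => D.st) (fun _ => hV.v5.1) rfl hstart
  refine ⟨fun i => D.hl t h0 (T i), ?_, ?_⟩
  · intro i
    obtain ⟨hnd, hlt, hlen, _⟩ := hV.v4 (T i) (hT i) (hphi i)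
    have hnd' : (D.hl t h0 (T i)).Nodup := by
      unfold Dat.hl
      refine List.Nodup.map_on ?_ hnd
      intro x hx y hy h
      rw [dif_pos (hlt x hx), dif_pos (hlt y hy)] at h
      exact congrArg Fin.val h
    refine ⟨hnd', ?_⟩
    intro a
    have hcard : (D.hl t h0 (T i)).toFinset.card = Fintype.card (Fin t) := by
      rw [List.toFinset_card_of_nodup hnd', Fintype.card_fin]
      unfold Dat.hl
      rw [List.length_map, hlen]
    have huniv := (Finset.card_eq_iff_eq_univ _).mp hcard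
    rw [← List.mem_toFinset, huniv]
    exact mem_univ _
  · have : ∑ i, pathEdges (D.hl t h0 (T i)) = ∑ i, D.E t h0 (T i) := by
      apply sum_congr rfl
      intro i _
      obtain ⟨hnd, hlt, hlen, hc⟩ := hV.v4 (T i) (hT i) (hphi i)
      apply enc_inj
      · rw [card_pathEdges]
        unfold Dat.hl
        rw [List.length_map, hlen]; omega
      · rw [card_E]; omega
      · rw [enc_E hV h0 (hT i), ← hc]
        exact enc_pathEdges h0 _ hlt
    rw [this]
    exact hR

end

end HG.Gm
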